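import Mathlib
import Pool.Agent.H46R3.DG.Stmts

set_option autoImplicit false

namespace Pool.Agent.H127R3.DG

open Pool.Agent.H46R3.DG

theorem pow_expand (x n : ℕ) : ∃ k : ℕ, (1 + x) ^ n = 1 + n * x + x ^ 2 * k := by
  induction n with
  | zero => exact ⟨0, by simp⟩
  | succ n ih =>
    obtain ⟨k, hk⟩ := ih
    refine ⟨n + k * (1 + x), ?_⟩
    rw [pow_succ, hk]
    push_cast
    ring

theorem step (q e u : ℕ) (he : 2 ≤ e) (hu : ¬ q ∣ u) :
    ∃ u' : ℕ, ¬ q ∣ u' ∧ (1 + q ^ e * u) ^ q = 1 + q ^ (e + 1) * u' := by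
  obtain ⟨k, hk⟩ := pow_expand (q ^ e * u) q
  obtain ⟨f, rfl⟩ : ∃ f, e = f + 2 := ⟨e - 2, by omega⟩
  refine ⟨u + q * (q ^ f * (u ^ 2 * k)), ?_, ?_⟩
  · intro h
    exact hu ((Nat.dvd_add_left (dvd_mul_right q _)).1 h)
  · rw [hk]
    ring

theorem taskB : TaskB := by
  intro p q hp hq hpq
  have hq2 : 2 ≤ q := hq.two_le
  have hp2 : 2 ≤ p := hp.two_le
  have hT1 : 1 ≤ q * (q - 1) := Nat.mul_pos (by omega) (by omega)
  have hcop : Nat.Coprime p (q ^ 2) := Nat.Coprime.pow_right 2 ((Nat.coprime_primes hp hq).2 hpq)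
  have htot : Nat.totient (q ^ 2) = q * (q - 1) := by
    rw [Nat.totient_prime_pow hq (by norm_num)]
    simp
  have heul : p ^ (q * (q - 1)) ≡ 1 [MOD q ^ 2] := by
    rw [← htot]
    exact Nat.ModEq.pow_totient hcop
  have hdvd : q ^ 2 ∣ p ^ (q * (q - 1)) - 1 := by
    exact (Nat.modEq_iff_dvd' (Nat.one_le_pow _ _ (by omega))).1 heul.symm
  have hpos : p ^ (q * (q - 1)) - 1 ≠ 0 := by
    have : 2 ^ 1 ≤ p ^ (q * (q - 1)) :=
      (Nat.pow_le_pow_left hp2 1).trans (Nat.pow_le_pow_right (by omega) hT1)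
    omega
  obtain ⟨s, u, hu, hsu⟩ : ∃ s u : ℕ, ¬ q ∣ u ∧ p ^ (q * (q - 1)) - 1 = q ^ s * u :=
    Nat.exists_eq_pow_mul_and_not_dvd hpos q (by omega)
  have hs2 : 2 ≤ s := by
    by_contra hlt
    have hs1 : s ≤ 1 := by omega
    rw [hsu] at hdvd
    apply hu
    have h1 : q ^ s * q ∣ q ^ s * u := by
      refine dvd_trans ?_ hdvd
      rw [← pow_succ]
      exact pow_dvd_pow q (by omega)
    exact (Nat.mul_dvd_mul_iff_left (pow_pos (by omega) s)).1 h1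
  have hbase : p ^ (q * (q - 1)) = 1 + q ^ s * u := by omega
  refine ⟨q * (q - 1), s, hp, hq, hpq, hT1, by omega, ?_⟩
  intro j
  induction j with
  | zero => exact ⟨u, hu, by simpa using hbase⟩
  | succ j ih =>
    obtain ⟨v, hv, hpv⟩ := ih
    obtain ⟨w, hw, hpw⟩ := step q (j + s) v (by omega) hv
    refine ⟨w, hw, ?_⟩
    have e1 : q * (q - 1) * q ^ (j + 1) = q * (q - 1) * q ^ j * q := by ring
    have e2 : j + 1 + s = j + s + 1 := by ring
    rw [e1, pow_mul, hpv, hpw, e2]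

end Pool.Agent.H127R3.DG
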